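import Pool.Agent.W42.RG.Defs2

/-! # Project LY, ELL2 (helper797) -/

set_option autoImplicit false

namespace Pool.Agent.W797.LY

open Pool.Agent.W42.RG

theorem nw_apply {V : Type} [AddCommGroup V] [Module ℝ V] (A : V ≃ₗ[ℝ] V) (ω : ℂ) (φ : ℂ →ₗ[ℝ] V)
    (ζ : ℂ) : nw A ω φ ζ = A (φ ζ) - φ (ω * ζ) := rfl

theorem step {V : Type} [AddCommGroup V] [Module ℝ V] (A : V ≃ₗ[ℝ] V) (J : Submodule ℝ V)
    (hJ : ∀ Y ∈ J, A Y ∈ J) (ω : ℂ) (χ ψ : ℂ →ₗ[ℝ] V)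
    (h1 : ∀ ζ, A (χ ζ) = χ (ω * ζ) + ψ ζ) (h2 : ∀ ζ, A (ψ ζ) - ψ (ω * ζ) ∈ J) (n : ℕ) (ζ : ℂ) :
    (A ^ n) (χ (ω * ζ)) - χ (ω ^ (n + 1) * ζ) - (n : ℝ) • ψ (ω ^ n * ζ) ∈ J := by
  induction n with
  | zero =>
    simp
  | succ n ih =>
    have e1 : (A ^ (n + 1)) (χ (ω * ζ)) = A ((A ^ n) (χ (ω * ζ))) := by
      rw [pow_succ', LinearEquiv.mul_apply]
    have h3 := hJ _ ih
    have h4 := J.smul_mem (n : ℝ) (h2 (ω ^ n * ζ))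
    have h5 := h1 (ω ^ (n + 1) * ζ)
    have e2 : ω * (ω ^ (n + 1) * ζ) = ω ^ (n + 1 + 1) * ζ := by ring
    have e3 : ω * (ω ^ n * ζ) = ω ^ (n + 1) * ζ := by ring
    rw [e2] at h5
    rw [e3] at h4
    have h6 := J.add_mem h3 h4
    have e4 : (A ^ (n + 1)) (χ (ω * ζ)) - χ (ω ^ (n + 1 + 1) * ζ) -
        ((n + 1 : ℕ) : ℝ) • ψ (ω ^ (n + 1) * ζ) =
        A ((A ^ n) (χ (ω * ζ)) - χ (ω ^ (n + 1) * ζ) - (n : ℝ) • ψ (ω ^ n * ζ)) +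
          (n : ℝ) • (A (ψ (ω ^ n * ζ)) - ψ (ω ^ (n + 1) * ζ)) := by
      rw [e1, map_sub, map_sub, h5, map_smul]
      push_cast
      module
    rw [e4]
    exact h6

theorem t_ELL2 : S_ELL2 := by
  intro V _ _ _ _ _ _ _ A J hE ω hω φ d hd hN ζ₀
  obtain ⟨hJ, hB⟩ := hE
  obtain ⟨c, rfl⟩ : ∃ c, d = c + 1 := ⟨d - 1, by omega⟩
  have hω0 : ω ≠ 0 := by
    intro h; rw [h, norm_zero] at hω; exact zero_ne_one hω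
  set χ : ℂ →ₗ[ℝ] V := (nw A ω)^[c] φ with hχ
  have hψ : (nw A ω)^[c + 1] φ = nw A ω χ := by rw [Function.iterate_succ_apply']
  have hψ2 : (nw A ω)^[c + 1 + 1] φ = nw A ω (nw A ω χ) := by
    rw [Function.iterate_succ_apply', hψ]
  rw [hψ]
  rw [hψ2] at hN
  set ψ : ℂ →ₗ[ℝ] V := nw A ω χ with hψd
  have h1 : ∀ ζ, A (χ ζ) = χ (ω * ζ) + ψ ζ := by
    intro ζ
    rw [hψd, nw_apply]
    abel
  have h2 : ∀ ζ, A (ψ ζ) - ψ (ω * ζ) ∈ J := fun ζ => by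
    have := hN ζ
    rwa [nw_apply] at this
  by_contra hcon
  obtain ⟨ℓ, hℓ1, hℓ2⟩ := Submodule.exists_dual_map_eq_bot_of_notMem hcon inferInstance
  have hℓJ : ∀ Y ∈ J, ℓ Y = 0 := by
    intro Y hY
    have : ℓ Y ∈ J.map ℓ := Submodule.mem_map_of_mem hY
    rw [hℓ2] at this
    exact (Submodule.mem_bot ℝ).mp this
  have hcont : Continuous ℓ := LinearMap.continuous_of_finiteDimensional ℓ
  have hbd : ∀ Y : V, ∃ B : ℝ, 0 ≤ B ∧ ∀ n : ℕ, |ℓ ((A ^ n) Y)| ≤ B := by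
    intro Y
    obtain ⟨C, hC, hn⟩ := hB Y
    obtain ⟨B, hBB⟩ := (hC.image hcont).isBounded.exists_norm_le
    refine ⟨max B 0, le_max_right _ _, fun n => ?_⟩
    obtain ⟨W, hW, hWC⟩ := hn (n : ℤ)
    rw [zpow_natCast] at hWC
    have h3 := hBB _ (Set.mem_image_of_mem ℓ hWC)
    rw [map_sub, hℓJ W hW, sub_zero, Real.norm_eq_abs] at h3
    exact h3.trans (le_max_left _ _)
  obtain ⟨B1, hB10, hB1⟩ := hbd (χ 1)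
  obtain ⟨B2, hB20, hB2⟩ := hbd (χ Complex.I)
  have hchi : ∀ ζ : ℂ, χ ζ = ζ.re • χ 1 + ζ.im • χ Complex.I := by
    intro ζ
    rw [← map_smul, ← map_smul, ← map_add]
    congr 1
    apply Complex.ext <;> simp
  have hb3 : ∀ (n : ℕ) (ζ : ℂ), |ℓ ((A ^ n) (χ ζ))| ≤ ‖ζ‖ * (B1 + B2) := by
    intro n ζ
    rw [hchi ζ, map_add, map_smul, map_smul, map_add, map_smul, map_smul, smul_eq_mul, smul_eq_mul]
    calc |ζ.re * ℓ ((A ^ n) (χ 1)) + ζ.im * ℓ ((A ^ n) (χ Complex.I))|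
        ≤ |ζ.re * ℓ ((A ^ n) (χ 1))| + |ζ.im * ℓ ((A ^ n) (χ Complex.I))| := abs_add_le _ _
      _ = |ζ.re| * |ℓ ((A ^ n) (χ 1))| + |ζ.im| * |ℓ ((A ^ n) (χ Complex.I))| := by
          rw [abs_mul, abs_mul]
      _ ≤ ‖ζ‖ * B1 + ‖ζ‖ * B2 := by
          have := Complex.abs_re_le_norm ζ
          have := Complex.abs_im_le_norm ζ
          have := hB1 n
          have := hB2 n
          gcongr
      _ = _ := by ring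
  have key : ∀ n : ℕ, (n : ℝ) * |ℓ (ψ ζ₀)| ≤ ‖ζ₀‖ * (B1 + B2) + |ℓ (χ (ω * ζ₀))| := by
    intro n
    have h4 := step A J hJ ω χ ψ h1 h2 n ((ω ^ n)⁻¹ * ζ₀)
    have hne : ω ^ n ≠ 0 := pow_ne_zero _ hω0
    have e1 : ω ^ n * ((ω ^ n)⁻¹ * ζ₀) = ζ₀ := by
      rw [← mul_assoc, mul_inv_cancel₀ hne, one_mul]
    have e2 : ω ^ (n + 1) * ((ω ^ n)⁻¹ * ζ₀) = ω * ζ₀ := by
      rw [pow_succ', mul_assoc, e1]
    rw [e1, e2] at h4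
    have h5 := hℓJ _ h4
    rw [map_sub, map_sub, map_smul, smul_eq_mul] at h5
    have h6 := hb3 n (ω * ((ω ^ n)⁻¹ * ζ₀))
    have e3 : ‖ω * ((ω ^ n)⁻¹ * ζ₀)‖ = ‖ζ₀‖ := by
      rw [norm_mul, norm_mul, norm_inv, norm_pow, hω]
      simp
    rw [e3] at h6
    have h7 : (n : ℝ) * ℓ (ψ ζ₀) = ℓ ((A ^ n) (χ (ω * ((ω ^ n)⁻¹ * ζ₀)))) - ℓ (χ (ω * ζ₀)) := by
      linarith
    calc (n : ℝ) * |ℓ (ψ ζ₀)| = |(n : ℝ) * ℓ (ψ ζ₀)| := by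
          rw [abs_mul, Nat.abs_cast]
      _ = |ℓ ((A ^ n) (χ (ω * ((ω ^ n)⁻¹ * ζ₀)))) - ℓ (χ (ω * ζ₀))| := by rw [h7]
      _ ≤ |ℓ ((A ^ n) (χ (ω * ((ω ^ n)⁻¹ * ζ₀))))| + |ℓ (χ (ω * ζ₀))| := abs_sub _ _
      _ ≤ _ := by linarith
  have hpos : 0 < |ℓ (ψ ζ₀)| := abs_pos.mpr hℓ1
  obtain ⟨n, hn⟩ := exists_nat_gt ((‖ζ₀‖ * (B1 + B2) + |ℓ (χ (ω * ζ₀))|) / |ℓ (ψ ζ₀)|)
  rw [div_lt_iff₀ hpos] at hn
  exact absurd (key n) (not_le.mpr hn)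

end Pool.Agent.W797.LY
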